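import Pool.Agent.Q153.FreeLC

/-!
For a metrizable space `X`, if `sp_N(X)` is a `k`-space for one `N ≥ 2`, then it is one for all `N`.
-/

set_option autoImplicit false

namespace Pool.Agent.Results.MP_7b06ad_gt.AllLevels

open Pool.Agent.Q153.FreeTVS Pool.Agent.Q153.KOmega Pool.Agent.Q153.FreeK

/-- Let `X` be metrizable, let `V` with `i : X → V` be the free (Hausdorff) topological vector space
over `X`, and suppose that `sp_N(X)` is a `k`-space for some `N ≥ 2` (for instance `N = 4`). Then
`sp_n(X)` is a `k`-space, and even a `k_ω`-space, for every `n`. Moreover `V` is a `k_ω`-space and `X`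
is locally compact and separable. -/
theorem result {X V : Type} [TopologicalSpace X] [TopologicalSpace.MetrizableSpace X]
    [AddCommGroup V] [Module ℝ V] [TopologicalSpace V] [IsTopologicalAddGroup V]
    [ContinuousSMul ℝ V] [T2Space V] {i : X → V} (hi : IsFreeTVS i) {N : ℕ} (hN : 2 ≤ N)
    (h : IsKSpace (sp i N)) :
    (∀ n, IsKSpace (sp i n)) ∧ (∀ n, IsKOmega (sp i n)) ∧ IsKOmega V ∧
      LocallyCompactSpace X ∧ TopologicalSpace.SeparableSpace X := by
  let _ := TopologicalSpace.metrizableSpaceMetric X
  have h1 := weaklyLocallyCompact_of_isKSpace hi hN h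
  have h2 := separable_of_isKSpace hi hN h
  have : SecondCountableTopology X := UniformSpace.secondCountable_of_separable X
  obtain ⟨h3, h4⟩ := isKOmega_free hi
  exact ⟨fun n => (h4 n).isKSpace, h4, h3, inferInstance, h2⟩

end Pool.Agent.Results.MP_7b06ad_gt.AllLevels
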